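import Pool.Agent.H8.TAK.Final
import Pool.Agent.H8.TAK.Leg

/-!
# Local level sets of the Takagi function

The ordinates whose level set contains a local level set of dimension at least `α` form a set of dimension at most `h (α)`.
-/

set_option autoImplicit false

open H8TAK Filter Topology

noncomputable section

namespace Pool.Agent.H24.TK

/-- `D_n(x)`: the number of digits `0` minus the number of digits `1` among the first `n` binary digits of `x ∈ [0,1)` -/
def balance (n : ℕ) (x : ℝ) : ℤ := ∑ j ∈ Finset.range n, (-1 : ℤ) ^ ⌊(2 : ℝ) ^ (j + 1) * x⌋₊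

/-- the local level set of `x`: the points `x' ∈ [0,1]` with `|D_n(x')| = |D_n(x)|` for all `n` -/
def localLevelSet (x : ℝ) : Set ℝ := {x' | x' ∈ Set.Icc (0 : ℝ) 1 ∧ ∀ n, |balance n x'| = |balance n x|}

theorem dd_succ (n k : ℕ) : dd (n + 1) k = dd n (k / 2) + 1 - 2 * ((k % 2 : ℕ) : ℤ) := rfl

theorem ss_succ (n k : ℕ) : ss (n + 1) k = 2 * ss n (k / 2) + ((k % 2 : ℕ) : ℤ) * (1 + dd n (k / 2)) := rfl

theorem balance_eq (n : ℕ) (x : ℝ) : balance n x = dd n ⌊(2 : ℝ) ^ n * x⌋₊ := by
  induction n with
  | zero => simp [balance, dd]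
  | succ n ih =>
    unfold balance at ih ⊢
    rw [Finset.sum_range_succ, ih, CL_dd_step]
    rcases Nat.mod_two_eq_zero_or_one ⌊(2 : ℝ) ^ (n + 1) * x⌋₊ with h | h
    · rw [h, (Nat.even_iff.2 h).neg_one_pow]
      push_cast
      ring
    · rw [h, (Nat.odd_iff.2 h).neg_one_pow]
      push_cast
      ring

/-! ## The folded values -/

/-- the value after all excursions have been made positive -/
def fold (n k : ℕ) : ℤ := ss n k + min (dd n k) 0

/-- the number of departures from the ground -/
def zc : ℕ → ℕ → ℕ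
  | 0, _ => 0
  | n + 1, k => zc n (k / 2) + if dd n (k / 2) = 0 then 1 else 0

theorem fold_succ (n k : ℕ) :
    (|dd (n + 1) k| = |dd n (k / 2)| + 1 ∧ fold (n + 1) k = 2 * fold n (k / 2)) ∨
      (|dd (n + 1) k| + 1 = |dd n (k / 2)| ∧ fold (n + 1) k = 2 * fold n (k / 2) + 1 + |dd n (k / 2)|) := by
  unfold fold
  rw [dd_succ, ss_succ]
  set D := dd n (k / 2)
  set S := ss n (k / 2)
  rcases Nat.mod_two_eq_zero_or_one k with h | h
  · rw [h]
    push_cast
    rcases le_or_gt 0 D with hD | hD
    · left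
      rw [abs_of_nonneg hD, min_eq_right hD, min_eq_right (by linarith), abs_of_nonneg (by linarith)]
      constructor <;> ring
    · right
      rw [abs_of_neg hD, min_eq_left hD.le, min_eq_left (by linarith), abs_of_nonpos (by linarith)]
      constructor <;> ring
  · rw [h]
    push_cast
    rcases le_or_gt D 0 with hD | hD
    · left
      rw [abs_of_nonpos hD, min_eq_left hD, min_eq_left (by linarith), abs_of_nonpos (by linarith)]
      constructor <;> ring
    · right
      rw [abs_of_pos hD, min_eq_right hD.le, min_eq_right (by linarith), abs_of_nonneg (by linarith)]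
      constructor <;> ring

/-- the folded values of the words of length `n` which end at the height `h` and have `z` departures from the ground -/
def NF (n : ℕ) (h : ℤ) (z : ℕ) : Finset ℤ := ((Finset.range (2 ^ n)).filter (fun k => |dd n k| = h ∧ zc n k = z)).image (fold n)

theorem mem_NF {n : ℕ} {h : ℤ} {z : ℕ} {S : ℤ} : S ∈ NF n h z ↔ ∃ k < 2 ^ n, |dd n k| = h ∧ zc n k = z ∧ fold n k = S := by
  unfold NF
  rw [Finset.mem_image]
  constructor
  · rintro ⟨k, hk, rfl⟩
    rw [Finset.mem_filter, Finset.mem_range] at hk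
    exact ⟨k, hk.1, hk.2.1, hk.2.2, rfl⟩
  · rintro ⟨k, h1, h2, h3, rfl⟩
    exact ⟨k, Finset.mem_filter.2 ⟨Finset.mem_range.2 h1, h2, h3⟩, rfl⟩

theorem half_lt {n k : ℕ} (hk : k < 2 ^ (n + 1)) : k / 2 < 2 ^ n := by
  rw [pow_succ] at hk
  omega

theorem NF_zero (n z : ℕ) : NF (n + 1) 0 z ⊆ (NF n 1 z).image (fun S => 2 * S + 2) := by
  intro S hS
  obtain ⟨k, hk, hd, hz, rfl⟩ := mem_NF.1 hS
  rcases fold_succ n k with ⟨h1, h2⟩ | ⟨h1, h2⟩
  · exfalso
    rw [hd] at h1
    have := abs_nonneg (dd n (k / 2))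
    linarith
  · rw [hd, zero_add] at h1
    rw [← h1] at h2
    refine Finset.mem_image.2 ⟨fold n (k / 2), mem_NF.2 ⟨k / 2, half_lt hk, h1.symm, ?_, rfl⟩, ?_⟩
    · have h3 : dd n (k / 2) ≠ 0 := by
        intro h
        rw [h, abs_zero] at h1
        exact one_ne_zero h1
      rw [← hz]
      simp only [zc]
      rw [if_neg h3, add_zero]
    · rw [h2]
      ring

theorem NF_one (n z : ℕ) : NF (n + 1) 1 z ⊆ (if z = 0 then ∅ else (NF n 0 (z - 1)).image (fun S => 2 * S)) ∪
    (NF n 2 z).image (fun S => 2 * S + 3) := by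
  intro S hS
  obtain ⟨k, hk, hd, hz, rfl⟩ := mem_NF.1 hS
  rw [Finset.mem_union]
  rcases fold_succ n k with ⟨h1, h2⟩ | ⟨h1, h2⟩
  · left
    rw [hd] at h1
    have h3 : dd n (k / 2) = 0 := by
      have : |dd n (k / 2)| = 0 := by linarith
      exact abs_eq_zero.1 this
    simp only [zc] at hz
    rw [if_pos h3] at hz
    rw [if_neg (by omega)]
    refine Finset.mem_image.2 ⟨fold n (k / 2), mem_NF.2 ⟨k / 2, half_lt hk, by rw [h3, abs_zero], by omega, rfl⟩, h2.symm⟩
  · right
    rw [hd] at h1
    have h4 : |dd n (k / 2)| = 2 := by linarith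
    refine Finset.mem_image.2 ⟨fold n (k / 2), mem_NF.2 ⟨k / 2, half_lt hk, h4, ?_, rfl⟩, ?_⟩
    · have h3 : dd n (k / 2) ≠ 0 := by
        intro h
        rw [h, abs_zero] at h4
        norm_num at h4
      rw [← hz]
      simp only [zc]
      rw [if_neg h3, add_zero]
    · rw [h2, h4]
      ring

theorem NF_succ (n z : ℕ) {h : ℤ} (hh : 1 ≤ h) : NF (n + 1) (h + 1) z ⊆ (NF n h z).image (fun S => 2 * S) ∪
    (NF n (h + 2) z).image (fun S => 2 * S + (h + 3)) := by
  intro S hS
  obtain ⟨k, hk, hd, hz, rfl⟩ := mem_NF.1 hS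
  rw [Finset.mem_union]
  have h3 : dd n (k / 2) ≠ 0 := by
    intro h'
    rcases fold_succ n k with ⟨h1, -⟩ | ⟨h1, -⟩
    · rw [hd, h', abs_zero] at h1
      linarith
    · rw [hd, h', abs_zero] at h1
      linarith
  have h5 : zc n (k / 2) = z := by
    rw [← hz]
    simp only [zc]
    rw [if_neg h3, add_zero]
  rcases fold_succ n k with ⟨h1, h2⟩ | ⟨h1, h2⟩
  · left
    rw [hd] at h1
    exact Finset.mem_image.2 ⟨fold n (k / 2), mem_NF.2 ⟨k / 2, half_lt hk, by linarith, h5, rfl⟩, h2.symm⟩
  · right
    rw [hd] at h1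
    have h4 : |dd n (k / 2)| = h + 2 := by linarith
    refine Finset.mem_image.2 ⟨fold n (k / 2), mem_NF.2 ⟨k / 2, half_lt hk, h4, h5, rfl⟩, ?_⟩
    rw [h2, h4]
    ring

theorem card_union_image {A B : Finset ℤ} {f g : ℤ → ℤ} : (((A.image f) ∪ (B.image g)).card : ℝ) ≤ A.card + B.card := by
  have h1 := Finset.card_union_le (A.image f) (B.image g)
  have h2 := Finset.card_image_le (s := A) (f := f)
  have h3 := Finset.card_image_le (s := B) (f := g)
  exact_mod_cast h1.trans (add_le_add h2 h3)

theorem card_NF_le {b s : ℝ} (hb : 0 < b) (hs : 0 < s) (hs2 : s ^ 2 + 1 = b) (n : ℕ) : ∀ z : ℕ,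
    ((NF n 0 z).card : ℝ) * b ^ z ≤ (b / s) ^ n ∧ ∀ h : ℕ, ((NF n ((h : ℤ) + 1) z).card : ℝ) * b ^ z ≤ (b / s) ^ n * (b * (s⁻¹) ^ (h + 1)) := by
  have hlam : s⁻¹ + s = b / s := by
    field_simp
    linarith
  induction n with
  | zero =>
    intro z
    constructor
    · rw [pow_zero]
      rcases Nat.eq_zero_or_pos z with rfl | hz
      · rw [pow_zero, mul_one]
        have : (NF 0 0 0).card ≤ 1 := by
          unfold NF
          refine Finset.card_image_le.trans ((Finset.card_filter_le _ _).trans ?_)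
          simp
        exact_mod_cast this
      · have : NF 0 0 z = ∅ := by
          rw [Finset.eq_empty_iff_forall_notMem]
          intro S hS
          obtain ⟨k, -, -, h3, -⟩ := mem_NF.1 hS
          simp only [zc] at h3
          omega
        rw [this]
        simp
    · intro h
      have : NF 0 ((h : ℤ) + 1) z = ∅ := by
        rw [Finset.eq_empty_iff_forall_notMem]
        intro S hS
        obtain ⟨k, -, h2, -, -⟩ := mem_NF.1 hS
        simp only [dd, abs_zero] at h2
        omega
      rw [this, Finset.card_empty, Nat.cast_zero, zero_mul]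
      positivity
  | succ n ih =>
    intro z
    have hz := (ih z).2
    constructor
    · have h1 : ((NF (n + 1) 0 z).card : ℝ) ≤ (NF n 1 z).card := by
        exact_mod_cast (Finset.card_le_card (NF_zero n z)).trans Finset.card_image_le
      have h2 := hz 0
      rw [Nat.cast_zero, zero_add, zero_add, pow_one] at h2
      calc ((NF (n + 1) 0 z).card : ℝ) * b ^ z ≤ (NF n 1 z).card * b ^ z := mul_le_mul_of_nonneg_right h1 (by positivity)
        _ ≤ _ := h2
        _ = _ := by rw [pow_succ]; ring
    · intro h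
      cases h with
      | zero =>
        rw [Nat.cast_zero, zero_add]
        have h2 := hz 1
        rw [Nat.cast_one, one_add_one_eq_two] at h2
        have h1 : ((NF (n + 1) 1 z).card : ℝ) * b ^ z ≤ b * (b / s) ^ n + (NF n 2 z).card * b ^ z := by
          have h3 := Finset.card_le_card (NF_one n z)
          rcases Nat.eq_zero_or_pos z with rfl | hz0
          · rw [if_pos rfl, Finset.empty_union] at h3
            have h4 : ((NF (n + 1) 1 0).card : ℝ) ≤ (NF n 2 0).card := by
              exact_mod_cast h3.trans Finset.card_image_le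
            rw [pow_zero, mul_one, mul_one]
            have : 0 ≤ b * (b / s) ^ n := by positivity
            linarith
          · rw [if_neg (by omega)] at h3
            have h4 : ((NF (n + 1) 1 z).card : ℝ) ≤ (NF n 0 (z - 1)).card + (NF n 2 z).card :=
              le_trans (by exact_mod_cast h3) card_union_image
            have h5 := (ih (z - 1)).1
            have h6 : b ^ z = b * b ^ (z - 1) := by
              rw [← pow_succ', Nat.sub_add_cancel hz0]
            calc ((NF (n + 1) 1 z).card : ℝ) * b ^ z ≤ ((NF n 0 (z - 1)).card + (NF n 2 z).card) * b ^ z :=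
                  mul_le_mul_of_nonneg_right h4 (by positivity)
              _ = b * ((NF n 0 (z - 1)).card * b ^ (z - 1)) + (NF n 2 z).card * b ^ z := by
                  rw [add_mul, h6]
                  ring
              _ ≤ _ := add_le_add (mul_le_mul_of_nonneg_left h5 hb.le) le_rfl
        refine (h1.trans (add_le_add le_rfl h2)).trans (le_of_eq ?_)
        have e1 : (b / s) ^ (n + 1) * (b * s⁻¹ ^ (0 + 1)) = (b / s) ^ n * (b * (s⁻¹ * (b / s))) := by
          rw [pow_succ]
          ring
        have h3 : s⁻¹ * s = 1 := inv_mul_cancel₀ hs.ne'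
        have e2 : s⁻¹ * (b / s) = 1 + s⁻¹ ^ 2 := by
          rw [← hlam, mul_add, h3]
          ring
        rw [e1, e2]
        ring
      | succ h =>
        have h2 := hz h
        have h3 := hz (h + 2)
        have h4 : ((NF (n + 1) (((h + 1 : ℕ) : ℤ) + 1) z).card : ℝ) ≤ (NF n ((h : ℤ) + 1) z).card + (NF n (((h + 2 : ℕ) : ℤ) + 1) z).card := by
          have h5 := NF_succ n z (h := (h : ℤ) + 1) (by omega)
          have e1 : (((h + 1 : ℕ) : ℤ) + 1) = ((h : ℤ) + 1) + 1 := by push_cast; ring
          have e2 : (((h + 2 : ℕ) : ℤ) + 1) = ((h : ℤ) + 1) + 2 := by push_cast; ring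
          rw [e1, e2]
          exact le_trans (by exact_mod_cast Finset.card_le_card h5) card_union_image
        have h6 := mul_le_mul_of_nonneg_right h4 (show (0 : ℝ) ≤ b ^ z by positivity)
        rw [add_mul] at h6
        refine (h6.trans (add_le_add h2 h3)).trans (le_of_eq ?_)
        have h7 : s⁻¹ * s = 1 := inv_mul_cancel₀ hs.ne'
        have e1 : (b / s) ^ (n + 1) * (b * s⁻¹ ^ (h + 1 + 1)) = (b / s) ^ n * (b * (s⁻¹ ^ (h + 1) * (s⁻¹ * (b / s)))) := by
          rw [pow_succ, pow_succ s⁻¹ (h + 1)]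
          ring
        have e2 : s⁻¹ * (b / s) = 1 + s⁻¹ ^ 2 := by
          rw [← hlam, mul_add, h7]
          ring
        rw [e1, e2]
        ring

end Pool.Agent.H24.TK
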