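import Pool.Agent.H24.TK.Loc

/-!
# The dimension of a local level set
-/

set_option autoImplicit false

open H8TAK Filter Topology

noncomputable section

namespace Pool.Agent.H24.TK

/-- all prefixes of `k` and `j` (words of length `n`) have the same height up to the sign -/
def same : ℕ → ℕ → ℕ → Prop
  | 0, _, _ => True
  | n + 1, k, j => same n (k / 2) (j / 2) ∧ |dd (n + 1) k| = |dd (n + 1) j|

theorem same_abs : ∀ {n k j : ℕ}, same n k j → |dd n k| = |dd n j|
  | 0, _, _, _ => rfl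
  | _ + 1, _, _, h => h.2

theorem same_fold : ∀ {n k j : ℕ}, same n k j → fold n k = fold n j
  | 0, _, _, _ => rfl
  | n + 1, k, j, h => by
    have h1 := same_fold h.1
    have h2 := same_abs h.1
    have h3 := h.2
    rcases fold_succ n k with ⟨a1, a2⟩ | ⟨a1, a2⟩ <;> rcases fold_succ n j with ⟨b1, b2⟩ | ⟨b1, b2⟩
    · rw [a2, b2, h1]
    · exfalso; linarith
    · exfalso; linarith
    · rw [a2, b2, h1, h2]

theorem same_of_balance {x x' : ℝ} (h : ∀ n, |balance n x'| = |balance n x|) (n : ℕ) :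
    same n ⌊(2 : ℝ) ^ n * x'⌋₊ ⌊(2 : ℝ) ^ n * x⌋₊ := by
  induction n with
  | zero => trivial
  | succ n ih =>
    refine ⟨?_, ?_⟩
    · rw [CL_floor_half, CL_floor_half]
      exact ih
    · rw [← balance_eq, ← balance_eq]
      exact h _

open Classical in
/-- the words with the same heights as `j` -/
def SW (n j : ℕ) : Finset ℕ := (Finset.range (2 ^ n)).filter (fun k => same n k j)

theorem mem_SW {n j k : ℕ} : k ∈ SW n j ↔ k < 2 ^ n ∧ same n k j := by
  classical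
  unfold SW
  rw [Finset.mem_filter, Finset.mem_range]

theorem card_SW_le (n : ℕ) : ∀ j : ℕ, (SW n j).card ≤ 2 ^ zc n j := by
  induction n with
  | zero =>
    intro j
    classical
    unfold SW
    refine (Finset.card_filter_le _ _).trans ?_
    simp [zc]
  | succ n ih =>
    intro j
    have himg : (SW (n + 1) j).image (fun k => k / 2) ⊆ SW n (j / 2) := by
      intro i hi
      obtain ⟨k, hk, rfl⟩ := Finset.mem_image.1 hi
      obtain ⟨h1, h2⟩ := mem_SW.1 hk
      exact mem_SW.2 ⟨half_lt h1, h2.1⟩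
    have hfib : ∀ i ∈ (SW (n + 1) j).image (fun k => k / 2), ((SW (n + 1) j).filter (fun k => k / 2 = i)).card ≤
        2 ^ (if dd n (j / 2) = 0 then 1 else 0) := by
      intro i hi
      split_ifs with h0
      · rw [pow_one]
        have hsub : (SW (n + 1) j).filter (fun k => k / 2 = i) ⊆ {2 * i, 2 * i + 1} := by
          intro k hk
          have := (Finset.mem_filter.1 hk).2
          rw [Finset.mem_insert, Finset.mem_singleton]
          omega
        exact (Finset.card_le_card hsub).trans Finset.card_le_two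
      · rw [pow_zero, Finset.card_le_one]
        intro k hk l hl
        obtain ⟨hk1, hk2⟩ := Finset.mem_filter.1 hk
        obtain ⟨hl1, hl2⟩ := Finset.mem_filter.1 hl
        have ek := (mem_SW.1 hk1).2
        have el := (mem_SW.1 hl1).2
        have e3 := ek.2.trans el.2.symm
        have e4 : dd n i ≠ 0 := by
          intro h
          have := same_abs ek.1
          rw [hk2, h, abs_zero] at this
          exact h0 (abs_eq_zero.1 this.symm)
        rw [dd_succ, dd_succ, hk2, hl2] at e3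
        rcases Nat.mod_two_eq_zero_or_one k with hk3 | hk3 <;> rcases Nat.mod_two_eq_zero_or_one l with hl3 | hl3
        · omega
        · exfalso
          rw [hk3, hl3] at e3
          push_cast at e3
          rcases abs_eq_abs.1 e3 with h | h <;> omega
        · exfalso
          rw [hk3, hl3] at e3
          push_cast at e3
          rcases abs_eq_abs.1 e3 with h | h <;> omega
        · omega
    have h1 := Finset.card_le_mul_card_image (f := fun k => k / 2) (SW (n + 1) j) _ hfib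
    refine h1.trans ?_
    simp only [zc]
    rw [pow_add, mul_comm]
    exact Nat.mul_le_mul ((Finset.card_le_card himg).trans (ih _)) le_rfl

theorem floor_lt_two_pow {x : ℝ} (h0 : 0 ≤ x) (h1 : x < 1) (n : ℕ) : ⌊(2 : ℝ) ^ n * x⌋₊ < 2 ^ n := by
  rw [Nat.floor_lt (by positivity)]
  push_cast
  have h2 : (0 : ℝ) < 2 ^ n := by positivity
  nlinarith

theorem abs_sub_floor_le {x : ℝ} (h0 : 0 ≤ x) (n : ℕ) : |x - (⌊(2 : ℝ) ^ n * x⌋₊ : ℝ) / 2 ^ n| ≤ 1 / 2 ^ n := by
  have h2 : (0 : ℝ) < 2 ^ n := by positivity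
  have hk0 : (⌊(2 : ℝ) ^ n * x⌋₊ : ℝ) ≤ 2 ^ n * x := Nat.floor_le (by positivity)
  have hk1 : 2 ^ n * x < ⌊(2 : ℝ) ^ n * x⌋₊ + 1 := Nat.lt_floor_add_one _
  have e : x - (⌊(2 : ℝ) ^ n * x⌋₊ : ℝ) / 2 ^ n = (2 ^ n * x - ⌊(2 : ℝ) ^ n * x⌋₊) / 2 ^ n := by
    field_simp
  rw [e, abs_div, abs_of_pos h2]
  apply div_le_div_of_nonneg_right _ h2.le
  rw [abs_le]
  constructor <;> linarith

/-- the local level set is small if the walk returns to `0` rarely at infinitely many times -/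
theorem dimH_local_le {x a : ℝ} (ha : 0 ≤ a) (hfr : ∃ᶠ n : ℕ in atTop, (zc n ⌊(2 : ℝ) ^ n * x⌋₊ : ℝ) ≤ a * n) :
    dimH (localLevelSet x) ≤ ENNReal.ofReal a := by
  classical
  set T : Set ℝ := {x' | x' ∈ localLevelSet x ∧ x' < 1} with hT
  have hsub : localLevelSet x ⊆ {1} ∪ T := by
    intro x' hx'
    rcases hx'.1.2.eq_or_lt with h | h
    · left; exact h
    · right; exact ⟨hx', h⟩
  have hd : dimH T ≤ ENNReal.ofReal a := by
    apply dimH_limsup_le (C := 1) 0 ha zero_le_one (fun n => if (zc n ⌊(2 : ℝ) ^ n * x⌋₊ : ℝ) ≤ a * n then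
      (SW n ⌊(2 : ℝ) ^ n * x⌋₊).image (fun k : ℕ => (k : ℝ) / 2 ^ n) else ∅)
    · filter_upwards with n
      split_ifs with h
      · rw [pow_zero, one_mul, one_mul]
        calc (((SW n ⌊(2 : ℝ) ^ n * x⌋₊).image (fun k : ℕ => (k : ℝ) / 2 ^ n)).card : ℝ) ≤ (SW n ⌊(2 : ℝ) ^ n * x⌋₊).card := by
              exact_mod_cast Finset.card_image_le
          _ ≤ 2 ^ zc n ⌊(2 : ℝ) ^ n * x⌋₊ := by exact_mod_cast card_SW_le n _
          _ = (2 : ℝ) ^ (zc n ⌊(2 : ℝ) ^ n * x⌋₊ : ℝ) := (Real.rpow_natCast _ _).symm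
          _ ≤ _ := Real.rpow_le_rpow_of_exponent_le (by norm_num) h
      · rw [Finset.card_empty, Nat.cast_zero]
        positivity
    · rintro x' ⟨hx', hx1⟩
      refine hfr.mono fun n hn => ?_
      rw [if_pos hn]
      refine ⟨_, Finset.mem_image_of_mem _ (mem_SW.2 ⟨floor_lt_two_pow hx'.1.1 hx1 n, same_of_balance hx'.2 n⟩), ?_⟩
      refine (abs_sub_floor_le hx'.1.1 n).trans ?_
      apply div_le_div_of_nonneg_right _ (by positivity)
      have : (0 : ℝ) ≤ n := Nat.cast_nonneg n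
      linarith
  calc dimH (localLevelSet x) ≤ dimH ({1} ∪ T) := dimH_mono hsub
    _ = max (dimH ({1} : Set ℝ)) (dimH T) := dimH_union _ _
    _ ≤ ENNReal.ofReal a := max_le (by rw [dimH_singleton]; exact bot_le) hd

theorem two_pow_mul_takagi {x : ℝ} (h0 : 0 ≤ x) (n : ℕ) :
    2 ^ n * takagi x - (ss n ⌊(2 : ℝ) ^ n * x⌋₊ : ℝ) = takagi (2 ^ n * x - ⌊(2 : ℝ) ^ n * x⌋₊) +
      dd n ⌊(2 : ℝ) ^ n * x⌋₊ * (2 ^ n * x - ⌊(2 : ℝ) ^ n * x⌋₊) := by
  have h2 : (0 : ℝ) < 2 ^ n := by positivity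
  set k := ⌊(2 : ℝ) ^ n * x⌋₊ with hk
  have hk0 : (k : ℝ) ≤ 2 ^ n * x := Nat.floor_le (by positivity)
  have hk1 : 2 ^ n * x < k + 1 := Nat.lt_floor_add_one _
  have haff := takagi_affine n k (t := 2 ^ n * x - k) (by linarith) (by linarith)
  have hxe : ((k : ℝ) + (2 ^ n * x - k)) / 2 ^ n = x := by
    field_simp
    ring
  rw [hxe] at haff
  rw [haff]
  field_simp
  ring

theorem abs_sub_ss_le {x : ℝ} (h0 : 0 ≤ x) (n : ℕ) :
    |2 ^ n * takagi x - (ss n ⌊(2 : ℝ) ^ n * x⌋₊ : ℝ)| ≤ 1 + |(dd n ⌊(2 : ℝ) ^ n * x⌋₊ : ℝ)| := by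
  have hk0 : (⌊(2 : ℝ) ^ n * x⌋₊ : ℝ) ≤ 2 ^ n * x := Nat.floor_le (by positivity)
  have hk1 : 2 ^ n * x < ⌊(2 : ℝ) ^ n * x⌋₊ + 1 := Nat.lt_floor_add_one _
  rw [two_pow_mul_takagi h0 n]
  have ht1 := takagi_nonneg (2 ^ n * x - ⌊(2 : ℝ) ^ n * x⌋₊)
  have ht2 := takagi_le (2 ^ n * x - ⌊(2 : ℝ) ^ n * x⌋₊)
  refine (abs_add_le _ _).trans (add_le_add ?_ ?_)
  · rw [abs_of_nonneg ht1]; linarith
  · rw [abs_mul]
    have : |2 ^ n * x - (⌊(2 : ℝ) ^ n * x⌋₊ : ℝ)| ≤ 1 := by
      rw [abs_le]; constructor <;> linarith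
    calc |(dd n ⌊(2 : ℝ) ^ n * x⌋₊ : ℝ)| * |2 ^ n * x - (⌊(2 : ℝ) ^ n * x⌋₊ : ℝ)| ≤ |(dd n ⌊(2 : ℝ) ^ n * x⌋₊ : ℝ)| * 1 :=
          mul_le_mul_of_nonneg_left this (abs_nonneg _)
      _ = _ := mul_one _

/-- the Takagi function is constant on the local level sets -/
theorem localLevelSet_subset {x : ℝ} (hx : x ∈ Set.Icc (0 : ℝ) 1) : localLevelSet x ⊆ levelSet (takagi x) := by
  intro x' hx'
  refine ⟨hx'.1, ?_⟩
  have key : ∀ n : ℕ, |takagi x' - takagi x| ≤ (4 * n + 2) / 2 ^ n := by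
    intro n
    have h2 : (0 : ℝ) < 2 ^ n := by positivity
    have hs := same_of_balance hx'.2 n
    have hf := same_fold hs
    have h1 := abs_sub_ss_le hx'.1.1 n
    have h3 := abs_sub_ss_le hx.1 n
    have d1 : |(dd n ⌊(2 : ℝ) ^ n * x'⌋₊ : ℝ)| ≤ n := by exact_mod_cast abs_dd_le n ⌊(2 : ℝ) ^ n * x'⌋₊
    have d2 : |(dd n ⌊(2 : ℝ) ^ n * x⌋₊ : ℝ)| ≤ n := by exact_mod_cast abs_dd_le n ⌊(2 : ℝ) ^ n * x⌋₊
    have h4 : ∀ k : ℕ, |(fold n k : ℝ) - ss n k| ≤ |(dd n k : ℝ)| := by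
      intro k
      unfold fold
      push_cast
      rw [add_sub_cancel_left]
      rcases le_total (dd n k : ℝ) 0 with h | h
      · rw [min_eq_left h]
      · rw [min_eq_right h, abs_zero]
        exact abs_nonneg _
    have h5 := h4 ⌊(2 : ℝ) ^ n * x'⌋₊
    have h6 := h4 ⌊(2 : ℝ) ^ n * x⌋₊
    rw [hf] at h5
    rw [le_div_iff₀ h2]
    have e : |takagi x' - takagi x| * 2 ^ n = |2 ^ n * takagi x' - 2 ^ n * takagi x| := by
      rw [← mul_sub, abs_mul, abs_of_pos h2]
      ring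
    rw [e]
    rw [abs_le] at h1 h3 h5 h6 ⊢
    constructor <;> linarith [h1.1, h1.2, h3.1, h3.2, h5.1, h5.2, h6.1, h6.2, d1, d2]
  have hlim : Tendsto (fun n : ℕ => (4 * (n : ℝ) + 2) / 2 ^ n) atTop (𝓝 0) := by
    have h1 : Tendsto (fun n : ℕ => (n : ℝ) ^ 1 * (1 / 2 : ℝ) ^ n) atTop (𝓝 0) :=
      tendsto_pow_const_mul_const_pow_of_abs_lt_one 1 (by rw [abs_of_pos] <;> norm_num)
    have h2 : Tendsto (fun n : ℕ => (1 / 2 : ℝ) ^ n) atTop (𝓝 0) := tendsto_pow_atTop_nhds_zero_of_lt_one (by norm_num) (by norm_num)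
    have h3 := (h1.const_mul 4).add (h2.const_mul 2)
    rw [mul_zero, mul_zero, add_zero] at h3
    refine h3.congr fun n => ?_
    rw [one_div, inv_pow, pow_one]
    field_simp
  have h0 : |takagi x' - takagi x| ≤ 0 := ge_of_tendsto' hlim key
  have := abs_nonpos_iff.1 h0
  linarith

/-- the ordinates of local level sets of dimension at least `α` -/
theorem dimH_localOrdinates_le {α : ℝ} (h0 : 0 < α) (h1 : α < 1 / 2) :
    dimH {y : ℝ | ∃ x ∈ Set.Icc (0 : ℝ) 1, takagi x = y ∧ ENNReal.ofReal α ≤ dimH (localLevelSet x)} ≤ ENNReal.ofReal (hh α) := by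
  classical
  -- the parameter
  set b : ℝ := 2 * (1 - α) / (1 - 2 * α) with hbdef
  have hc : 0 < 1 - 2 * α := by linarith
  have hb1 : 1 < b := by
    rw [hbdef, lt_div_iff₀ hc]
    linarith
  have hb0 : 0 < b := by linarith
  have hbm : b - 1 = 1 / (1 - 2 * α) := by
    rw [hbdef]
    field_simp
    ring
  have hs2 : √(b - 1) ^ 2 = b - 1 := Real.sq_sqrt (by linarith)
  have hs : 0 < √(b - 1) := Real.sqrt_pos.2 (by linarith)
  set s := √(b - 1) with hsdef
  have hs3 : s ^ 2 + 1 = b := by linarith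
  have hlogs : Real.logb 2 s = Real.logb 2 (b - 1) / 2 := by
    rw [hsdef, Real.sqrt_eq_rpow, Real.logb_rpow_eq_mul_logb_of_pos (by linarith)]
    ring
  -- the exponent
  set β : ℝ → ℝ := fun a => (1 - a) * Real.logb 2 b - Real.logb 2 (b - 1) / 2 with hβ
  have hlb : 0 < Real.logb 2 b := Real.logb_pos (by norm_num) hb1
  have hβα : β α = hh α := by
    simp only [hβ]
    unfold hh
    rw [hbm, hbdef, Real.logb_div (by linarith) hc.ne', Real.logb_div one_ne_zero hc.ne', Real.logb_one]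
    ring
  have hhnn : 0 ≤ hh α := by
    rw [← hβα]
    simp only [hβ]
    have h2 : Real.logb 2 (b - 1) ≤ Real.logb 2 (b ^ (2 * (1 - α))) := by
      apply Real.logb_le_logb_of_le (by norm_num) (by linarith)
      have h3 : b - 1 ≤ b ^ (1 : ℝ) := by rw [Real.rpow_one]; linarith
      exact h3.trans (Real.rpow_le_rpow_of_exponent_le hb1.le (by linarith))
    rw [Real.logb_rpow_eq_mul_logb_of_pos hb0] at h2
    linarith
  -- reduction to `a < α`
  have hlim : Tendsto (fun a : ℝ => ENNReal.ofReal (β a)) (𝓝[<] α) (𝓝 (ENNReal.ofReal (hh α))) := by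
    have hcont : Continuous (fun a : ℝ => ENNReal.ofReal (β a)) := ENNReal.continuous_ofReal.comp (by simp only [hβ]; fun_prop)
    have := hcont.tendsto α
    rw [hβα] at this
    exact this.mono_left nhdsWithin_le_nhds
  refine ge_of_tendsto hlim ?_
  have e1 : ∀ᶠ a in 𝓝[<] α, 0 < a := nhdsWithin_le_nhds (lt_mem_nhds h0)
  have e2 : ∀ᶠ a in 𝓝[<] α, a < α := eventually_mem_nhdsWithin
  filter_upwards [e1, e2] with a ha haα
  have hβa : 0 ≤ β a := by
    have : β α ≤ β a := by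
      simp only [hβ]
      nlinarith
    rw [hβα] at this
    linarith
  -- the set `T`
  set T : Set ℝ := {y : ℝ | ∃ x, 0 ≤ x ∧ x < 1 ∧ takagi x = y ∧ ∃ᶠ n : ℕ in atTop, dd n ⌊(2 : ℝ) ^ n * x⌋₊ = 0 ∧
    a * n ≤ (zc n ⌊(2 : ℝ) ^ n * x⌋₊ : ℝ)} with hT
  have hsub : {y : ℝ | ∃ x ∈ Set.Icc (0 : ℝ) 1, takagi x = y ∧ ENNReal.ofReal α ≤ dimH (localLevelSet x)} ⊆ {takagi 1} ∪ T := by
    rintro y ⟨x, hx, rfl, hdim⟩
    rcases hx.2.eq_or_lt with h | h
    · left
      rw [h]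
      rfl
    · right
      refine ⟨x, hx.1, h, rfl, ?_⟩
      have hnf : ¬ ∃ᶠ n : ℕ in atTop, (zc n ⌊(2 : ℝ) ^ n * x⌋₊ : ℝ) ≤ a * n := by
        intro hfr
        have h2 := hdim.trans (dimH_local_le ha.le hfr)
        exact absurd h2 (not_le.2 ((ENNReal.ofReal_lt_ofReal_iff h0).2 haα))
      rw [not_frequently] at hnf
      have hev : ∀ᶠ n : ℕ in atTop, a * n ≤ (zc n ⌊(2 : ℝ) ^ n * x⌋₊ : ℝ) := hnf.mono fun n hn => (not_le.1 hn).le
      refine Frequently.and_eventually ?_ hev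
      intro hcon
      obtain ⟨n₀, hn₀⟩ := eventually_atTop.1 hcon
      have hconst : ∀ n, n₀ ≤ n → zc n ⌊(2 : ℝ) ^ n * x⌋₊ = zc n₀ ⌊(2 : ℝ) ^ n₀ * x⌋₊ := by
        intro n hn
        induction n, hn using Nat.le_induction with
        | base => rfl
        | succ n hn ih =>
          simp only [zc]
          rw [CL_floor_half, if_neg (hn₀ n hn), add_zero, ih]
      obtain ⟨n, hn1, hn2⟩ := ((hev.and (eventually_ge_atTop n₀)).and
        ((tendsto_natCast_atTop_atTop.const_mul_atTop ha).eventually_gt_atTop ((zc n₀ ⌊(2 : ℝ) ^ n₀ * x⌋₊ : ℕ) : ℝ))).exists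
      rw [hconst n hn1.2] at hn1
      linarith [hn1.1]
  have hdT : dimH T ≤ ENNReal.ofReal (β a) := by
    apply dimH_limsup_le (C := 1) 1 hβa zero_le_one (fun n =>
      ((Finset.range (n + 1)).filter (fun z : ℕ => a * n ≤ (z : ℝ))).biUnion (fun z => (NF n 0 z).image (fun S : ℤ => (S : ℝ) / 2 ^ n)))
    · filter_upwards with n
      have hz : ∀ z ∈ (Finset.range (n + 1)).filter (fun z : ℕ => a * n ≤ (z : ℝ)),
          (((NF n 0 z).image (fun S : ℤ => (S : ℝ) / 2 ^ n)).card : ℝ) ≤ 2 ^ (β a * n) := by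
        intro z hz
        have h2 : a * n ≤ (z : ℝ) := (Finset.mem_filter.1 hz).2
        have h3 := (card_NF_le hb0 hs hs3 n z).1
        have h4 : (b / s) ^ n = (2 : ℝ) ^ ((Real.logb 2 b - Real.logb 2 s) * n) := by
          rw [← Real.logb_div hb0.ne' hs.ne', Real.rpow_mul (by norm_num), Real.rpow_logb (by norm_num) (by norm_num) (by positivity),
            Real.rpow_natCast]
        have h5 : (2 : ℝ) ^ (a * n * Real.logb 2 b) ≤ b ^ z := by
          have h6 : b ^ z = (2 : ℝ) ^ ((z : ℝ) * Real.logb 2 b) := by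
            rw [mul_comm, Real.rpow_mul (by norm_num), Real.rpow_logb (by norm_num) (by norm_num) hb0, Real.rpow_natCast]
          rw [h6]
          exact Real.rpow_le_rpow_of_exponent_le (by norm_num) (mul_le_mul_of_nonneg_right h2 hlb.le)
        have h7 : ((NF n 0 z).card : ℝ) * 2 ^ (a * n * Real.logb 2 b) ≤ 2 ^ ((Real.logb 2 b - Real.logb 2 s) * n) := by
          rw [← h4]
          exact (mul_le_mul_of_nonneg_left h5 (Nat.cast_nonneg _)).trans h3
        have h8 : ((NF n 0 z).card : ℝ) ≤ 2 ^ (β a * n) := by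
          have h9 : (2 : ℝ) ^ (β a * n) * 2 ^ (a * n * Real.logb 2 b) = 2 ^ ((Real.logb 2 b - Real.logb 2 s) * n) := by
            rw [← Real.rpow_add (by norm_num), hlogs]
            congr 1
            simp only [hβ]
            ring
          rw [← h9] at h7
          exact le_of_mul_le_mul_right h7 (by positivity)
        exact le_trans (by exact_mod_cast Finset.card_image_le) h8
      calc ((((Finset.range (n + 1)).filter (fun z : ℕ => a * n ≤ (z : ℝ))).biUnion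
            (fun z => (NF n 0 z).image (fun S : ℤ => (S : ℝ) / 2 ^ n))).card : ℝ)
          ≤ ∑ z ∈ (Finset.range (n + 1)).filter (fun z : ℕ => a * n ≤ (z : ℝ)),
            (((NF n 0 z).image (fun S : ℤ => (S : ℝ) / 2 ^ n)).card : ℝ) := by
            exact_mod_cast Finset.card_biUnion_le
        _ ≤ ∑ _z ∈ (Finset.range (n + 1)).filter (fun z : ℕ => a * n ≤ (z : ℝ)), (2 : ℝ) ^ (β a * n) := Finset.sum_le_sum hz
        _ = ((Finset.range (n + 1)).filter (fun z : ℕ => a * n ≤ (z : ℝ))).card * 2 ^ (β a * n) := by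
            rw [Finset.sum_const, nsmul_eq_mul]
        _ ≤ ((n : ℝ) + 1) * 2 ^ (β a * n) := by
            apply mul_le_mul_of_nonneg_right _ (by positivity)
            have := Finset.card_filter_le (Finset.range (n + 1)) (fun z : ℕ => a * n ≤ (z : ℝ))
            rw [Finset.card_range] at this
            exact_mod_cast this
        _ = _ := by rw [one_mul, pow_one]
    · rintro y ⟨x, hx0, hx1, rfl, hfr⟩
      refine hfr.mono ?_
      rintro n ⟨hd, hz⟩
      have hfold : fold n ⌊(2 : ℝ) ^ n * x⌋₊ = ss n ⌊(2 : ℝ) ^ n * x⌋₊ := by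
        unfold fold
        rw [hd, min_self, add_zero]
      have hzn : ∀ n k : ℕ, zc n k ≤ n := by
        intro n
        induction n with
        | zero => intro k; simp [zc]
        | succ n ih =>
          intro k
          simp only [zc]
          have := ih (k / 2)
          split_ifs <;> omega
      refine ⟨(ss n ⌊(2 : ℝ) ^ n * x⌋₊ : ℝ) / 2 ^ n, ?_, ?_⟩
      · rw [Finset.mem_biUnion]
        refine ⟨zc n ⌊(2 : ℝ) ^ n * x⌋₊, Finset.mem_filter.2 ⟨Finset.mem_range.2 (Nat.lt_succ_of_le (hzn _ _)), hz⟩, ?_⟩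
        exact Finset.mem_image.2 ⟨_, mem_NF.2 ⟨_, floor_lt_two_pow hx0 hx1 n, by rw [hd, abs_zero], rfl, hfold⟩, rfl⟩
      · have h2 : (0 : ℝ) < 2 ^ n := by positivity
        have h3 := abs_sub_ss_le hx0 n
        rw [hd, Int.cast_zero, abs_zero, add_zero] at h3
        have e : takagi x - (ss n ⌊(2 : ℝ) ^ n * x⌋₊ : ℝ) / 2 ^ n = (2 ^ n * takagi x - ss n ⌊(2 : ℝ) ^ n * x⌋₊) / 2 ^ n := by
          field_simp
        rw [e, abs_div, abs_of_pos h2]
        apply div_le_div_of_nonneg_right _ h2.le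
        have : (0 : ℝ) ≤ n := Nat.cast_nonneg n
        linarith
  calc dimH {y : ℝ | ∃ x ∈ Set.Icc (0 : ℝ) 1, takagi x = y ∧ ENNReal.ofReal α ≤ dimH (localLevelSet x)}
      ≤ dimH ({takagi 1} ∪ T) := dimH_mono hsub
    _ = max (dimH ({takagi 1} : Set ℝ)) (dimH T) := dimH_union _ _
    _ ≤ ENNReal.ofReal (β a) := max_le (by rw [dimH_singleton]; exact bot_le) hdT

end Pool.Agent.H24.TK
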