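import Pool.Agent.H24.TK.Strict

/-!
# The strict inequality for the pressure and for the spectrum
-/

set_option autoImplicit false

open Function H8TAK Filter Topology

noncomputable section

namespace Pool.Agent.H24.TK

theorem kappa_pos {q : ℝ} (hq : 1 < q) : 0 < (12 : ℝ) ^ q - (2 ^ q) ^ 3 - (2 ^ q) ^ 2 := by
  have h1 : ((2 : ℝ) / 3) ^ q < 2 / 3 := by
    have := Real.rpow_lt_rpow_of_exponent_gt (by norm_num : (0 : ℝ) < 2 / 3) (by norm_num) hq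
    rwa [Real.rpow_one] at this
  have h2 : ((1 : ℝ) / 3) ^ q < 1 / 3 := by
    have := Real.rpow_lt_rpow_of_exponent_gt (by norm_num : (0 : ℝ) < 1 / 3) (by norm_num) hq
    rwa [Real.rpow_one] at this
  have h3 : ((2 : ℝ) ^ q) ^ 3 = 12 ^ q * (2 / 3) ^ q := by
    rw [← Real.mul_rpow (by norm_num) (by norm_num), ← Real.rpow_natCast, ← Real.rpow_mul (by norm_num), mul_comm q,
      Real.rpow_mul (by norm_num)]
    norm_num
  have h4 : ((2 : ℝ) ^ q) ^ 2 = 12 ^ q * (1 / 3) ^ q := by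
    rw [← Real.mul_rpow (by norm_num) (by norm_num), ← Real.rpow_natCast, ← Real.rpow_mul (by norm_num), mul_comm q,
      Real.rpow_mul (by norm_num)]
    norm_num
  rw [h3, h4]
  have h5 : (0 : ℝ) < 12 ^ q := by positivity
  nlinarith

theorem exists_growth {q : ℝ} (hq : 1 < q) : ∃ ν : ℝ, 2 ^ q / √(2 ^ q - 1) < ν ∧ ∃ (c : ℝ) (M : ℕ), 0 < c ∧
    ∀ m : ℕ, ν ^ (2 * m) ≤ c * ZZ (M + m) q := by
  set a : ℝ := 2 ^ q with hadef
  have ha : 2 < a := by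
    have := Real.rpow_lt_rpow_of_exponent_lt (by norm_num : (1 : ℝ) < 2) hq
    rwa [Real.rpow_one] at this
  have ha0 : 0 < a := by linarith
  have hs2 : √(a - 1) ^ 2 = a - 1 := Real.sq_sqrt (by linarith)
  have hs1 : 1 < √(a - 1) := by
    rw [Real.lt_sqrt (by norm_num)]
    linarith
  set s := √(a - 1) with hsdef
  have hs : 0 < s := by linarith
  have hlam : s⁻¹ + s = a / s := by
    field_simp
    linarith
  have hlam2 : 2 < a / s := by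
    rw [lt_div_iff₀ hs]
    nlinarith [sq_nonneg (s - 1)]
  obtain ⟨lam, hlamdef⟩ : ∃ lam : ℝ, lam = a / s := ⟨_, rfl⟩
  rw [← hlamdef] at hlam hlam2 ⊢
  set κ : ℝ := 12 ^ q - a ^ 3 - a ^ 2 with hκdef
  have hκ : 0 < κ := kappa_pos hq
  set C0 : ℝ := (lam + 1) ^ 11 + a * ((lam + 1) ^ 7 + a * (lam + 1) ^ 5) + a * (lam + 1) ^ 9 with hC0
  have hC0p : 0 < C0 := by positivity
  obtain ⟨δ, hδdef⟩ : ∃ δ : ℝ, δ = κ / (2 * C0) := ⟨_, rfl⟩
  have hδ : 0 < δ := by rw [hδdef]; positivity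
  have hδC : δ * C0 = κ / 2 := by
    rw [hδdef]
    field_simp
  -- the choice of `ρ`
  have hr0 : 0 < s⁻¹ := inv_pos.2 hs
  have hr1 : s⁻¹ < 1 := inv_lt_one_of_one_lt₀ hs1
  have hcont1 : Tendsto (fun ρ : ℝ => ρ⁻¹ - (a - 1) * ρ) (𝓝 s⁻¹) (𝓝 0) := by
    have h1 : Tendsto (fun ρ : ℝ => ρ⁻¹ - (a - 1) * ρ) (𝓝 s⁻¹) (𝓝 ((s⁻¹)⁻¹ - (a - 1) * s⁻¹)) :=
      (tendsto_inv₀ hr0.ne').sub (tendsto_id.const_mul _)
    have h2 : (s⁻¹)⁻¹ - (a - 1) * s⁻¹ = 0 := by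
      rw [inv_inv, ← hs2]
      field_simp
      ring
    rwa [h2] at h1
  have hcont2 : Tendsto (fun ρ : ℝ => ρ + ρ⁻¹) (𝓝 s⁻¹) (𝓝 lam) := by
    have h1 : Tendsto (fun ρ : ℝ => ρ + ρ⁻¹) (𝓝 s⁻¹) (𝓝 (s⁻¹ + (s⁻¹)⁻¹)) := tendsto_id.add (tendsto_inv₀ hr0.ne')
    rwa [inv_inv, hlam] at h1
  have e1 : ∀ᶠ ρ in 𝓝[<] s⁻¹, ρ⁻¹ - (a - 1) * ρ < δ / 2 :=
    nhdsWithin_le_nhds (hcont1.eventually (gt_mem_nhds (by linarith)))
  have e2 : ∀ᶠ ρ in 𝓝[<] s⁻¹, ρ + ρ⁻¹ < lam + 1 :=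
    nhdsWithin_le_nhds (hcont2.eventually (gt_mem_nhds (by linarith)))
  have e3 : ∀ᶠ ρ in 𝓝[<] s⁻¹, 0 < ρ := nhdsWithin_le_nhds (lt_mem_nhds hr0)
  have e4 : ∀ᶠ ρ in 𝓝[<] s⁻¹, ρ < s⁻¹ := eventually_mem_nhdsWithin
  obtain ⟨ρ, ⟨⟨hρ1, hρ2⟩, hρ0⟩, hρr⟩ := (((e1.and e2).and e3).and e4).exists
  have hρl1 : ρ < 1 := hρr.trans hr1
  obtain ⟨ν, hνdef⟩ : ∃ ν : ℝ, ν = ρ + ρ⁻¹ := ⟨_, rfl⟩
  rw [← hνdef] at hρ2
  have hνlam : lam < ν := by
    have h1 : ν - lam = (s⁻¹ - ρ) * (ρ⁻¹ * s - 1) := by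
      rw [hνdef, ← hlam]
      have h2 : ρ * ρ⁻¹ = 1 := mul_inv_cancel₀ hρ0.ne'
      have h3 : s⁻¹ * s = 1 := inv_mul_cancel₀ hs.ne'
      linear_combination (-ρ⁻¹ : ℝ) * h3 + s * h2
    have h4 : 1 < ρ⁻¹ * s := by
      have h5 : 1 < ρ⁻¹ := (one_lt_inv₀ hρ0).2 hρl1
      nlinarith
    have h6 : 0 < (s⁻¹ - ρ) * (ρ⁻¹ * s - 1) := mul_pos (by linarith) (by linarith)
    linarith
  have hν2 : 2 < ν := hlam2.trans hνlam
  have hν0 : 0 < ν := by linarith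
  -- the choice of `ε`
  obtain ⟨ε, hεdef⟩ : ∃ ε : ℝ, ε = min (1 / 2) (δ * ρ / (2 * a)) := ⟨_, rfl⟩
  have hε0 : 0 < ε := by
    rw [hεdef]
    exact lt_min (by norm_num) (by positivity)
  have hε1 : ε ≤ 1 / 2 := by rw [hεdef]; exact min_le_left _ _
  have hε2 : ε * (a * ρ⁻¹) ≤ δ / 2 := by
    have h1 : ε ≤ δ * ρ / (2 * a) := by rw [hεdef]; exact min_le_right _ _
    have h2 : 0 < a * ρ⁻¹ := mul_pos ha0 (inv_pos.2 hρ0)
    refine (mul_le_mul_of_nonneg_right h1 h2.le).trans (le_of_eq ?_)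
    field_simp
  set g : ℕ → ℝ := fun d => ρ ^ d - ε * (ρ⁻¹) ^ d with hg
  set ψ : ℕ → ℝ := fun d => max (g d) 0 with hψ
  have hgrec : ∀ d : ℕ, ν * g (d + 1) = g (d + 2) + g d := by
    intro d
    have hi : ρ * ρ⁻¹ = 1 := mul_inv_cancel₀ hρ0.ne'
    simp only [hg]
    rw [hνdef]
    have e1 : ρ⁻¹ * ρ ^ (d + 1) = ρ ^ d := by
      rw [pow_succ, mul_comm, mul_assoc, hi, mul_one]
    have e2 : ρ * ρ⁻¹ ^ (d + 1) = ρ⁻¹ ^ d := by
      rw [pow_succ]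
      calc ρ * (ρ⁻¹ ^ d * ρ⁻¹) = ρ⁻¹ ^ d * (ρ * ρ⁻¹) := by ring
        _ = ρ⁻¹ ^ d := by rw [hi, mul_one]
    have e3 : ρ * ρ ^ (d + 1) = ρ ^ (d + 2) := by ring
    have e4 : ρ⁻¹ * ρ⁻¹ ^ (d + 1) = ρ⁻¹ ^ (d + 2) := by ring
    calc (ρ + ρ⁻¹) * (ρ ^ (d + 1) - ε * ρ⁻¹ ^ (d + 1)) =
        ρ * ρ ^ (d + 1) + ρ⁻¹ * ρ ^ (d + 1) - ε * (ρ * ρ⁻¹ ^ (d + 1)) -
          ε * (ρ⁻¹ * ρ⁻¹ ^ (d + 1)) := by ring
      _ = _ := by
        rw [e1, e2, e3, e4]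
        ring
  have hψ0 : ∀ d, 0 ≤ ψ d := fun d => le_max_right _ _
  have hψrec : ∀ d : ℕ, ν * ψ (d + 1) ≤ ψ (d + 2) + ψ d := by
    intro d
    rcases le_total (g (d + 1)) 0 with h | h
    · have : ψ (d + 1) = 0 := max_eq_right h
      rw [this, mul_zero]
      exact add_nonneg (hψ0 _) (hψ0 _)
    · have : ψ (d + 1) = g (d + 1) := max_eq_left h
      rw [this, hgrec]
      exact add_le_add (le_max_left _ _) (le_max_left _ _)
  have hψz : ψ 0 = 1 - ε := by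
    have : g 0 = 1 - ε := by simp [hg]
    simp only [hψ]
    rw [this, max_eq_left (by linarith)]
  have hψground : ν * ψ 0 ≤ a * ψ 1 + δ := by
    have h1 : g 1 ≤ ψ 1 := le_max_left _ _
    have h2 : g 1 = ρ - ε * ρ⁻¹ := by simp [hg]
    rw [hψz]
    have h3 : a * (ρ - ε * ρ⁻¹) ≤ a * ψ 1 := by
      rw [← h2]
      exact mul_le_mul_of_nonneg_left h1 ha0.le
    have h4 : ν - a * ρ < δ / 2 := by
      rw [hνdef]
      linarith
    have h5 : 0 ≤ ν * ε := by positivity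
    nlinarith
  obtain ⟨L, hL⟩ := exists_pow_lt_of_lt_one hε0 (show ρ ^ 2 < 1 by nlinarith)
  have hψL : ∀ d, L ≤ d → ψ d = 0 := by
    intro d hd
    apply max_eq_right
    simp only [hg]
    have h1 : (ρ ^ 2) ^ d ≤ (ρ ^ 2) ^ L :=
      pow_le_pow_of_le_one (by positivity) (by nlinarith) hd
    have h2 : (ρ ^ 2) ^ d ≤ ε := by linarith
    have h3 : ρ ^ d * ρ⁻¹ ^ d = 1 := by
      rw [← mul_pow, mul_inv_cancel₀ hρ0.ne', one_pow]
    have h4 : 0 < ρ⁻¹ ^ d := by positivity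
    have h5 : (ρ ^ 2) ^ d = ρ ^ d * ρ ^ d := by
      rw [← pow_mul, ← pow_add]
      congr 1
      ring
    have h6 : ρ ^ d = (ρ ^ 2) ^ d * ρ⁻¹ ^ d := by
      rw [h5, mul_assoc, h3, mul_one]
    have h7 : (ρ ^ 2) ^ d * ρ⁻¹ ^ d ≤ ε * ρ⁻¹ ^ d := mul_le_mul_of_nonneg_right h2 h4.le
    linarith
  have hψone : ∀ d, ψ d ≤ 1 := by
    intro d
    apply max_le _ zero_le_one
    simp only [hg]
    have h1 : ρ ^ d ≤ 1 := pow_le_one₀ hρ0.le hρl1.le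
    have h4 : 0 < ρ⁻¹ ^ d := by positivity
    have h5 : 0 ≤ ε * ρ⁻¹ ^ d := by positivity
    linarith
  have hbase : ∀ n < 12, ∀ d, Even (n + d) → ν ^ n * ψ d ≤ ν ^ 12 * YY q (2 * L + n) d := by
    intro n hn d hd
    rcases le_total L d with h | h
    · rw [hψL d h, mul_zero]
      exact mul_nonneg (by positivity) (SQ_nonneg (nice_UU _ _) q)
    · have h1 : (1 : ℝ) ≤ YY q (2 * L + n) d := by
        obtain ⟨k, hk⟩ : ∃ k, 2 * L + n = d + 2 * k := by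
          obtain ⟨j, hj⟩ := hd
          refine ⟨L + j - d, ?_⟩
          omega
        rw [hk]
        exact (PressB_TT_one (a := a) (by linarith) k d).trans (TT_le_YY hq.le _ _)
      have h2 : ν ^ n ≤ ν ^ 12 := pow_le_pow_right₀ (by linarith) hn.le
      have h3 : ν ^ n * ψ d ≤ ν ^ n * 1 := mul_le_mul_of_nonneg_left (hψone d) (by positivity)
      nlinarith [pow_pos hν0 12]
  have hδ' : δ * (ν ^ 11 + 2 ^ q * (ν ^ 7 + 2 ^ q * ν ^ 5) + 2 ^ q * ν ^ 9) ≤ (12 ^ q - (2 ^ q) ^ 3 - (2 ^ q) ^ 2) * ψ 0 := by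
    rw [← hadef]
    change _ ≤ κ * ψ 0
    have h1 : ν ^ 11 + a * (ν ^ 7 + a * ν ^ 5) + a * ν ^ 9 ≤ C0 := by
      rw [hC0]
      gcongr
    have h2 := mul_le_mul_of_nonneg_left h1 hδ.le
    rw [hδC] at h2
    refine h2.trans ?_
    rw [hψz]
    nlinarith
  have hmain := YY_growth (q := q) (ν := ν) (δ := δ) (c := ν ^ 12) hq.le (by linarith) (by positivity) hψrec hψground hδ' hbase
  refine ⟨ν, hνlam, 2 * ν ^ 12, L, by positivity, fun m => ?_⟩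
  have h1 := hmain (2 * m) 0 (by rw [add_zero]; exact even_two_mul m)
  have h2 := YY_le_ZZ hq.le (L + m)
  rw [show 2 * (L + m) = 2 * L + 2 * m by ring] at h2
  rw [hψz] at h1
  have h3 : ν ^ (2 * m) * (1 / 2) ≤ ν ^ (2 * m) * (1 - ε) := mul_le_mul_of_nonneg_left (by linarith) (by positivity)
  have h4 := mul_le_mul_of_nonneg_left h2 (show (0 : ℝ) ≤ ν ^ 12 by positivity)
  linarith

theorem PP_gt {q : ℝ} (hq : 1 < q) : q - Real.logb 2 (2 ^ q - 1) / 2 < PP q := by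
  obtain ⟨ν, hν, c, M, hc, h⟩ := exists_growth hq
  have ha : (2 : ℝ) < 2 ^ q := by
    have := Real.rpow_lt_rpow_of_exponent_lt (by norm_num : (1 : ℝ) < 2) hq
    rwa [Real.rpow_one] at this
  have ha1 : (0 : ℝ) < 2 ^ q - 1 := by linarith
  have hs : 0 < √((2 : ℝ) ^ q - 1) := Real.sqrt_pos.2 ha1
  have e1 : Real.logb 2 (2 ^ q / √(2 ^ q - 1)) = q - Real.logb 2 (2 ^ q - 1) / 2 := by
    rw [Real.logb_div (by positivity) hs.ne', Real.logb_rpow (by norm_num) (by norm_num),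
      Real.sqrt_eq_rpow, Real.logb_rpow_eq_mul_logb_of_pos ha1]
    ring
  rw [← e1]
  have h0 : (0 : ℝ) < 2 ^ q / √(2 ^ q - 1) := by positivity
  have hν0 : 0 < ν := h0.trans hν
  refine lt_of_lt_of_le (Real.logb_lt_logb (by norm_num) h0 hν) ?_
  by_contra hcon
  push Not at hcon
  set t := Real.logb 2 ν - PP q with ht
  have ht0 : 0 < t := by rw [ht]; linarith
  -- the bound for all `m`
  have hm : ∀ m : ℕ, 2 * (m : ℝ) * t ≤ Real.logb 2 c + 2 * (M + 1) * PP q := by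
    intro m
    have h1 := h (m + 1)
    have h2 := Real.logb_le_logb_of_le (by norm_num : (1 : ℝ) < 2) (by positivity) h1
    have hZ : 0 < ZZ (M + (m + 1)) q := by
      have h3 : 0 < c * ZZ (M + (m + 1)) q := lt_of_lt_of_le (by positivity) h1
      exact pos_of_mul_pos_right h3 hc.le
    rw [Real.logb_pow, Real.logb_mul hc.ne' hZ.ne'] at h2
    have h4 := ee_le_PP (q := q) (by linarith) (M + m)
    have hm0 : (0 : ℝ) < 2 * ((M + m + 1 : ℕ) : ℝ) := by positivity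
    rw [div_le_iff₀ hm0] at h4
    rw [show M + (m + 1) = M + m + 1 from rfl] at h2
    have hl : 0 ≤ Real.logb 2 ν := by
      have h5 : (1 : ℝ) ≤ ν := by
        have h6 : (1 : ℝ) ≤ 2 ^ q / √(2 ^ q - 1) := by
          rw [le_div_iff₀ hs, one_mul, Real.sqrt_le_left (by linarith)]
          nlinarith
        linarith
      exact Real.logb_nonneg (by norm_num) h5
    push_cast at h2 h4
    rw [ht]
    nlinarith
  obtain ⟨m, hm'⟩ := exists_nat_gt ((Real.logb 2 c + 2 * (M + 1) * PP q) / (2 * t))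
  rw [div_lt_iff₀ (by positivity)] at hm'
  have := hm m
  linarith

theorem hh_lt_GG {α : ℝ} (h0 : 0 < α) (h1 : α < 1 / 2) : hh α < GG α := by
  obtain ⟨q, hq, hle⟩ := exists_supergradient h0.le h1
  have hq1 : 1 < q := by
    rcases hq.eq_or_lt with rfl | h
    · exfalso
      have h2 := GG_lt h0 h1.le
      have h3 := PP_ge (q := 1) le_rfl
      have h4 : Real.logb 2 ((2 : ℝ) ^ (1 : ℝ) - 1) = 0 := by
        rw [Real.rpow_one]
        norm_num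
      rw [h4] at h3
      linarith
    · exact h
  have h2 := PP_gt hq1
  have ha : (2 : ℝ) ≤ 2 ^ q := by
    have := Real.rpow_le_rpow_of_exponent_le (by norm_num : (1 : ℝ) ≤ 2) hq
    rwa [Real.rpow_one] at this
  have h3 := LegC_log h0.le h1 (t := 2 ^ q) (by linarith)
  rw [Real.log_rpow (by norm_num)] at h3
  have hL : 0 < Real.log 2 := Real.log_pos (by norm_num)
  have h4 : hh α ≤ (1 - α) * q - Real.logb 2 (2 ^ q - 1) / 2 := by
    unfold hh Real.logb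
    have h5 : (1 - α) * (Real.log (2 * (1 - α)) / Real.log 2) -
        (1 / 2 - α) * (Real.log (1 - 2 * α) / Real.log 2) =
        ((1 - α) * Real.log (2 * (1 - α)) - (1 / 2 - α) * Real.log (1 - 2 * α)) /
          Real.log 2 := by ring
    have h6 : (1 - α) * q - Real.log (2 ^ q - 1) / Real.log 2 / 2 =
        ((1 - α) * (q * Real.log 2) - Real.log (2 ^ q - 1) / 2) / Real.log 2 := by
      field_simp
    rw [h5, h6]
    apply div_le_div_of_nonneg_right _ hL.le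
    linarith
  linarith

end Pool.Agent.H24.TK
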