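import Pool.Agent.H24.TK.Tree

/-!
# The pressure is larger than the pressure of the local level sets
-/

set_option autoImplicit false

open Function H8TAK

noncomputable section

namespace Pool.Agent.H24.TK

/-- the sum of the losses at the departures from the ground -/
def dfc (a ν : ℝ) : List Bool → ℕ → ℕ → ℝ
  | [], _, _ => 0
  | _ :: w, 0, n => ν ^ (n + w.length) + a * dfc a ν w 1 n
  | false :: w, d + 1, n => dfc a ν w (d + 2) n
  | true :: w, d + 1, n => dfc a ν w d n

theorem wt_nonneg {a : ℝ} (ha : 0 ≤ a) (w : List Bool) : ∀ d : ℕ, 0 ≤ wt a w d := by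
  induction w with
  | nil => intro d; simp [wt]
  | cons b w ih =>
    intro d
    cases d with
    | zero => exact mul_nonneg ha (ih 1)
    | succ d =>
      cases b with
      | false => exact ih (d + 2)
      | true => exact ih d

theorem path_bound {a ν δ : ℝ} (ha : 0 ≤ a) (hν : 0 ≤ ν) {ψ : ℕ → ℝ} (hrec : ∀ d, ν * ψ (d + 1) ≤ ψ (d + 2) + ψ d)
    (hground : ν * ψ 0 ≤ a * ψ 1 + δ) {Z : ℕ → ℕ → ℝ} (n : ℕ) (w : List Bool)
    (H : ∀ k < n + w.length, ∀ e, Even (k + e) → ν ^ k * ψ e ≤ Z k e) :
    ∀ d : ℕ, Even (n + w.length + d) → ν ^ (n + w.length) * ψ d ≤ restZ Z a w d n + wt a w d * (ν ^ n * ψ (fin' w d)) + δ * dfc a ν w d n := by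
  induction w with
  | nil =>
    intro d _
    simp [restZ, wt, fin', dfc]
  | cons b w ih =>
    intro d hd
    have hl : n + (b :: w).length = (n + w.length) + 1 := by
      rw [List.length_cons]; ring
    rw [hl] at hd H ⊢
    have hk : n + w.length < n + w.length + 1 := Nat.lt_succ_self _
    have H' : ∀ k < n + w.length, ∀ e, Even (k + e) → ν ^ k * ψ e ≤ Z k e := fun k hk' => H k (by omega)
    have hp : 0 ≤ ν ^ (n + w.length) := pow_nonneg hν _
    cases d with
    | zero =>
      have h1 := ih H' 1 (by rw [show n + w.length + 1 = n + w.length + 1 + 0 from rfl]; exact hd)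
      simp only [restZ, wt, fin', dfc]
      rw [pow_succ, mul_assoc]
      have h2 := mul_le_mul_of_nonneg_left hground hp
      have h3 := mul_le_mul_of_nonneg_left h1 ha
      nlinarith
    | succ d =>
      have hev : Even (n + w.length + d) := by
        have : n + w.length + 1 + (d + 1) = (n + w.length + d) + 2 := by ring
        rw [this] at hd
        exact (Nat.even_add.1 hd).2 (by decide)
      have hev2 : Even (n + w.length + (d + 2)) := by
        rw [← add_assoc]
        exact hev.add (by decide)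
      have h2 := mul_le_mul_of_nonneg_left (hrec d) hp
      rw [pow_succ, mul_assoc]
      cases b with
      | false =>
        have h1 := ih H' (d + 2) hev2
        have h3 := H _ hk d hev
        simp only [restZ, wt, fin', dfc]
        nlinarith
      | true =>
        have h1 := ih H' d hev
        have h3 := H _ hk (d + 2) hev2
        simp only [restZ, wt, fin', dfc]
        nlinarith

theorem restZ_smul (Z : ℕ → ℕ → ℝ) (a c : ℝ) (L n : ℕ) (w : List Bool) : ∀ d : ℕ,
    restZ (fun k e => c * Z (L + k) e) a w d n = c * restZ Z a w d (L + n) := by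
  induction w with
  | nil => intro d; simp [restZ]
  | cons b w ih =>
    intro d
    cases d with
    | zero =>
      simp only [restZ, ih]
      ring
    | succ d =>
      cases b with
      | false =>
        simp only [restZ, ih, add_assoc]
        ring
      | true =>
        simp only [restZ, ih, add_assoc]
        ring

theorem dfcA (a ν : ℝ) (n : ℕ) : dfc a ν wA 2 n = ν ^ n * (ν ^ 7 + a * ν ^ 5) := by
  simp only [wA, dfc, List.length_cons, List.length_nil]
  ring

theorem dfcB (a ν : ℝ) (n : ℕ) : dfc a ν wB 0 n = ν ^ n * ν ^ 9 := by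
  simp only [wB, dfc, List.length_cons, List.length_nil]
  ring

theorem wtA (a : ℝ) : wt a wA 2 = a ^ 2 := by
  simp only [wA, wt]
  ring

theorem wtB (a : ℝ) : wt a wB 0 = a := by
  simp only [wB, wt]
  ring

/-- growth of the moment sums -/
theorem YY_growth {q ν δ c : ℝ} (hq : 1 ≤ q) (hν : 1 ≤ ν) (hc : 0 < c) {ψ : ℕ → ℝ}
    (hrec : ∀ d, ν * ψ (d + 1) ≤ ψ (d + 2) + ψ d) (hground : ν * ψ 0 ≤ 2 ^ q * ψ 1 + δ)
    (hδ : δ * (ν ^ 11 + 2 ^ q * (ν ^ 7 + 2 ^ q * ν ^ 5) + 2 ^ q * ν ^ 9) ≤ (12 ^ q - (2 ^ q) ^ 3 - (2 ^ q) ^ 2) * ψ 0)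
    {M : ℕ} (hbase : ∀ n < 12, ∀ d, Even (n + d) → ν ^ n * ψ d ≤ c * YY q (2 * M + n) d) :
    ∀ n d, Even (n + d) → ν ^ n * ψ d ≤ c * YY q (2 * M + n) d := by
  have hν0 : 0 ≤ ν := by linarith
  have ha : (0 : ℝ) ≤ 2 ^ q := by positivity
  intro n
  induction n using Nat.strong_induction_on with
  | _ n ih =>
    intro d hd
    rcases lt_or_ge n 12 with hn | hn
    · exact hbase n hn d hd
    · obtain ⟨n, rfl⟩ := Nat.exists_eq_add_of_le' hn
      cases d with
      | zero =>
        have hev : Even (n + 0) := by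
          rw [add_zero] at hd ⊢
          exact (Nat.even_add.1 hd).2 (by decide)
        have hev2 : Even (n + 10 + 2) := hd
        have hev0 : Even (n + 10 + 0) := by
          rw [add_zero] at hev ⊢
          exact hev.add (by decide)
        set Z : ℕ → ℕ → ℝ := fun k e => c * YY q (2 * M + k) e with hZ
        have HH : ∀ k < n + 10, ∀ e, Even (k + e) → ν ^ k * ψ e ≤ Z k e := fun k hk e he => ih k (by omega) e he
        have hA := path_bound ha hν0 hrec hground (Z := Z) n wA HH 2 hev2
        have hB := path_bound ha hν0 hrec hground (Z := Z) n wB HH 0 hev0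
        have lA : n + wA.length = n + 10 := rfl
        have lB : n + wB.length = n + 10 := rfl
        have fA : fin' wA 2 = 0 := rfl
        have fB : fin' wB 0 = 0 := rfl
        rw [lA, wtA, fA, dfcA] at hA
        rw [lB, wtB, fB, dfcB] at hB
        have eA : restZ Z (2 ^ q) wA 2 n = c * restZ (YY q) (2 ^ q) wA 2 (2 * M + n) := restZ_smul _ _ _ _ _ _ _
        have eB : restZ Z (2 ^ q) wB 0 n = c * restZ (YY q) (2 ^ q) wB 0 (2 * M + n) := restZ_smul _ _ _ _ _ _ _
        rw [eA] at hA
        rw [eB] at hB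
        have h12 := mul_le_mul_of_nonneg_left (YY_twelve hq (2 * M + n)) hc.le
        have hZn : ν ^ n * ψ 0 ≤ c * YY q (2 * M + n) 0 := ih n (by omega) 0 hev
        have hp : 0 ≤ ν ^ n := pow_nonneg hν0 _
        have g0 := mul_le_mul_of_nonneg_left hground (pow_nonneg hν0 (n + 11))
        have g1 := mul_le_mul_of_nonneg_left (hrec 0) (mul_nonneg ha (pow_nonneg hν0 (n + 10)))
        have g2 := mul_le_mul_of_nonneg_left hA ha
        have g3 := mul_le_mul_of_nonneg_left hB ha
        have g4 := mul_le_mul_of_nonneg_left hδ hp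
        have g5 := mul_le_mul_of_nonneg_left hZn (show (0 : ℝ) ≤ 12 ^ q by positivity)
        have e12 : 2 * M + (n + 12) = 2 * M + n + 12 := by ring
        rw [e12]
        refine le_trans ?_ h12
        have x1 : ν ^ (n + 12) = ν ^ (n + 11) * ν := by ring
        have x2 : ν ^ (n + 11) = ν ^ (n + 10) * ν := by ring
        have x3 : ν ^ (n + 11) = ν ^ n * ν ^ 11 := by ring
        have y1 : ν ^ (n + 12) * ψ 0 ≤ 2 ^ q * ν ^ (n + 11) * ψ 1 + δ * (ν ^ n * ν ^ 11) := by
          rw [x1, ← x3]
          linarith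
        have y2 : 2 ^ q * ν ^ (n + 11) * ψ 1 ≤ 2 ^ q * (ν ^ (n + 10) * ψ 2) + 2 ^ q * (ν ^ (n + 10) * ψ 0) := by
          rw [x2]
          linarith
        have y3 : (2 : ℝ) ^ q * (c * restZ (YY q) (2 ^ q) wA 2 (2 * M + n)) + 2 ^ q * (c * restZ (YY q) (2 ^ q) wB 0 (2 * M + n)) +
            12 ^ q * (ν ^ n * ψ 0) ≤ c * (2 ^ q * restZ (YY q) (2 ^ q) wA 2 (2 * M + n) + 2 ^ q * restZ (YY q) (2 ^ q) wB 0 (2 * M + n) +
            12 ^ q * YY q (2 * M + n) 0) := by
          linarith
        refine le_trans ?_ y3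
        linarith
      | succ d =>
        have hev : Even (n + 11 + d) := by
          have : n + 12 + (d + 1) = (n + 11 + d) + 2 := by ring
          rw [this] at hd
          exact (Nat.even_add.1 hd).2 (by decide)
        have hev2 : Even (n + 11 + (d + 2)) := by
          rw [← add_assoc]
          exact hev.add (by decide)
        have h1 := ih (n + 11) (by omega) d hev
        have h2 := ih (n + 11) (by omega) (d + 2) hev2
        have h3 := mul_le_mul_of_nonneg_left (YY_succ hq (2 * M + (n + 11)) d) hc.le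
        have h4 := mul_le_mul_of_nonneg_left (hrec d) (pow_nonneg hν0 (n + 11))
        have e12 : 2 * M + (n + 12) = 2 * M + (n + 11) + 1 := by ring
        rw [e12]
        refine le_trans ?_ h3
        have x1 : ν ^ (n + 12) = ν ^ (n + 11) * ν := by ring
        rw [x1]
        linarith

end Pool.Agent.H24.TK
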