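import Pool.Agent.H8.TAK.LegC
import Pool.Agent.H8.TAK.LegD

/-!
# The coincidence `001101001011`, `010000011111` and the moment sums

The moment sums of the multiplicities of the Takagi function grow faster than the moment sums of the local level sets.
-/

set_option autoImplicit false

open Function H8TAK

noncomputable section

namespace Pool.Agent.H24.TK

/-! ## Sums of `q`-th powers -/

/-- the sum of the `q`-th powers -/
def SQ (q : ℝ) (f : ℤ → ℝ) : ℝ := ∑' R, f R ^ q

/-- nonnegative and of finite support -/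
def Nice (f : ℤ → ℝ) : Prop := (∀ R, 0 ≤ f R) ∧ (support f).Finite

theorem nice_zero : Nice (fun _ => 0) := ⟨fun _ => le_rfl, by simp [Function.support]⟩

theorem Nice.add {f g : ℤ → ℝ} (hf : Nice f) (hg : Nice g) : Nice (fun R => f R + g R) := by
  refine ⟨fun R => add_nonneg (hf.1 R) (hg.1 R), (hf.2.union hg.2).subset ?_⟩
  intro R hR
  by_contra hcon
  simp only [Set.mem_union, mem_support, not_or, not_not] at hcon
  apply hR
  simp [hcon.1, hcon.2]

theorem Nice.shift {f : ℤ → ℝ} (hf : Nice f) (c : ℤ) : Nice (fun R => f (R - c)) := by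
  refine ⟨fun R => hf.1 _, ?_⟩
  refine (hf.2.image (fun R => R + c)).subset ?_
  intro R hR
  exact ⟨R - c, hR, by ring⟩

theorem Nice.smul {f : ℤ → ℝ} (hf : Nice f) {c : ℝ} (hc : 0 ≤ c) : Nice (fun R => c * f R) := by
  refine ⟨fun R => mul_nonneg hc (hf.1 R), hf.2.subset ?_⟩
  intro R hR h
  apply hR
  simp [h]

theorem nice_UU (n d : ℕ) : Nice (UU 1 n d) := by
  refine ⟨fun R => UU_nonneg zero_le_one n d R, ?_⟩
  refine (Set.finite_Icc (0 : ℤ) (2 ^ n * (3 * 2 ^ d * d + 2))).subset ?_
  intro R hR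
  obtain ⟨h1, h2⟩ := UU_support 1 n d R hR
  refine ⟨h1, le_trans ?_ h2⟩
  have h3 : (1 : ℤ) ≤ 2 ^ d := one_le_pow₀ (by norm_num)
  nlinarith

theorem Nice.summable {f : ℤ → ℝ} (hf : Nice f) {q : ℝ} (hq : q ≠ 0) : Summable (fun R => f R ^ q) := by
  refine summable_of_hasFiniteSupport (hf.2.subset ?_)
  intro R hR h
  apply hR
  show f R ^ q = 0
  rw [h, Real.zero_rpow hq]

theorem SQ_nonneg {f : ℤ → ℝ} (hf : Nice f) (q : ℝ) : 0 ≤ SQ q f := tsum_nonneg fun R => Real.rpow_nonneg (hf.1 R) q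

theorem SQ_add_le {f g : ℤ → ℝ} (hf : Nice f) (hg : Nice g) {q : ℝ} (hq : 1 ≤ q) : SQ q f + SQ q g ≤ SQ q (fun R => f R + g R) := by
  have hq0 : q ≠ 0 := by linarith
  unfold SQ
  rw [← (hf.summable hq0).tsum_add (hg.summable hq0)]
  exact Summable.tsum_le_tsum (fun R => Real.add_rpow_le_rpow_add (hf.1 R) (hg.1 R) hq) ((hf.summable hq0).add (hg.summable hq0))
    ((hf.add hg).summable hq0)

theorem SQ_shift (q : ℝ) (f : ℤ → ℝ) (c : ℤ) : SQ q (fun R => f (R - c)) = SQ q f :=
  (Equiv.subRight c).tsum_eq (fun R => f R ^ q)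

theorem SQ_smul {f : ℤ → ℝ} (hf : Nice f) {c : ℝ} (hc : 0 ≤ c) (q : ℝ) : SQ q (fun R => c * f R) = c ^ q * SQ q f := by
  unfold SQ
  rw [← tsum_mul_left]
  exact tsum_congr fun R => Real.mul_rpow hc (hf.1 R)

/-! ## Expansion along a path -/

/-- the height after the digits `w`, starting from the height `d` (at height `0` both digits lead to height `1`) -/
def fin' : List Bool → ℕ → ℕ
  | [], d => d
  | _ :: w, 0 => fin' w 1
  | false :: w, d + 1 => fin' w (d + 2)
  | true :: w, d + 1 => fin' w d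

/-- the weight of the path, `a` for every departure from the ground -/
def wt (a : ℝ) : List Bool → ℕ → ℝ
  | [], _ => 1
  | _ :: w, 0 => a * wt a w 1
  | false :: w, d + 1 => wt a w (d + 2)
  | true :: w, d + 1 => wt a w d

/-- the value added by the path -/
def sh : List Bool → ℕ → ℕ → ℤ
  | [], _, _ => 0
  | _ :: w, 0, n => sh w 1 n
  | false :: w, d + 1, n => sh w (d + 2) n
  | true :: w, d + 1, n => 2 ^ (n + w.length) * (d + 2) + sh w d n

/-- the contribution of the words which leave the path -/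
def rest : List Bool → ℕ → ℕ → ℤ → ℝ
  | [], _, _, _ => 0
  | _ :: w, 0, n, R => 2 * rest w 1 n R
  | false :: w, d + 1, n, R => rest w (d + 2) n R + UU 1 (n + w.length) d (R - 2 ^ (n + w.length) * (d + 2))
  | true :: w, d + 1, n, R => UU 1 (n + w.length) (d + 2) R + rest w d n (R - 2 ^ (n + w.length) * (d + 2))

theorem UU_eq (w : List Bool) (n : ℕ) : ∀ (d : ℕ) (R : ℤ), UU 1 (n + w.length) d R =
    rest w d n R + wt 2 w d * UU 1 n (fin' w d) (R - sh w d n) := by
  induction w with
  | nil =>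
    intro d R
    simp [rest, wt, fin', sh]
  | cons b w ih =>
    intro d R
    have hl : n + (b :: w).length = (n + w.length) + 1 := by
      rw [List.length_cons]; ring
    rw [hl]
    cases d with
    | zero =>
      simp only [UU, rest, wt, fin', sh, ih]
      ring
    | succ d =>
      cases b with
      | false =>
        simp only [UU, rest, wt, fin', sh, ih (d + 2)]
        ring
      | true =>
        simp only [UU, rest, wt, fin', sh, ih d]
        rw [sub_sub]
        ring

theorem nice_rest (w : List Bool) (n : ℕ) : ∀ d : ℕ, Nice (rest w d n) := by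
  induction w with
  | nil =>
    intro d
    exact nice_zero
  | cons b w ih =>
    intro d
    cases d with
    | zero => exact (ih 1).smul (by norm_num)
    | succ d =>
      cases b with
      | false => exact (ih (d + 2)).add ((nice_UU _ d).shift _)
      | true => exact (nice_UU _ (d + 2)).add ((ih d).shift _)

/-- the moment sum of the suffixes from the height `d` -/
def YY (q : ℝ) (n d : ℕ) : ℝ := SQ q (UU 1 n d)

/-- the contribution of the siblings, for a function `Z` of (length, height) -/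
def restZ (Z : ℕ → ℕ → ℝ) (a : ℝ) : List Bool → ℕ → ℕ → ℝ
  | [], _, _ => 0
  | _ :: w, 0, n => a * restZ Z a w 1 n
  | false :: w, d + 1, n => restZ Z a w (d + 2) n + Z (n + w.length) d
  | true :: w, d + 1, n => Z (n + w.length) (d + 2) + restZ Z a w d n

theorem restZ_le {q : ℝ} (hq : 1 ≤ q) (w : List Bool) (n : ℕ) : ∀ d : ℕ, restZ (YY q) (2 ^ q) w d n ≤ SQ q (rest w d n) := by
  induction w with
  | nil =>
    intro d
    exact SQ_nonneg (nice_rest [] n d) q
  | cons b w ih =>
    intro d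
    cases d with
    | zero =>
      have h1 : SQ q (rest (b :: w) 0 n) = 2 ^ q * SQ q (rest w 1 n) := SQ_smul (nice_rest w n 1) (by norm_num) q
      rw [h1]
      exact mul_le_mul_of_nonneg_left (ih 1) (by positivity)
    | succ d =>
      cases b with
      | false =>
        refine le_trans (add_le_add (ih (d + 2)) (le_of_eq ?_)) (SQ_add_le (nice_rest w n (d + 2)) ((nice_UU (n + w.length) d).shift _) hq)
        exact (SQ_shift q _ _).symm
      | true =>
        refine le_trans (add_le_add le_rfl ((ih d).trans (le_of_eq ?_))) (SQ_add_le (nice_UU (n + w.length) (d + 2)) ((nice_rest w n d).shift _) hq)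
        exact (SQ_shift q _ _).symm

/-- `1101001011`: from height `2` to height `0` -/
def wA : List Bool := [true, true, false, true, false, false, true, false, true, true]

/-- `0000011111`: from height `0` to height `0` -/
def wB : List Bool := [false, false, false, false, false, true, true, true, true, true]

theorem UU_coincidence (n : ℕ) (R : ℤ) : UU 1 (n + 12) 0 R =
    (2 * rest wA 2 n R + 2 * rest wB 0 n (R - 2 ^ (n + 11))) + 12 * UU 1 n 0 (R - 2208 * 2 ^ n) := by
  have h1 : UU 1 (n + 12) 0 R = 2 * (UU 1 (n + 10) 2 R + UU 1 (n + 10) 0 (R - 2 ^ (n + 11))) := by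
    have e1 : UU 1 (n + 12) 0 R = 2 * 1 * UU 1 (n + 11) 1 R := by
      rw [show n + 12 = (n + 11) + 1 from rfl]
      simp only [UU]
    have e2 : UU 1 (n + 11) 1 R = UU 1 (n + 10) 2 R + UU 1 (n + 10) 0 (R - 2 ^ (n + 10) * (((0 : ℕ) : ℤ) + 2)) := by
      rw [show n + 11 = (n + 10) + 1 from rfl]
      simp only [UU]
    rw [e1, e2]
    have e3 : (2 : ℤ) ^ (n + 10) * (((0 : ℕ) : ℤ) + 2) = 2 ^ (n + 11) := by
      push_cast
      ring
    rw [e3]
    ring
  have hA := UU_eq wA n 2 R
  have hB := UU_eq wB n 0 (R - 2 ^ (n + 11))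
  have lA : n + wA.length = n + 10 := rfl
  have lB : n + wB.length = n + 10 := rfl
  have wA' : wt 2 wA 2 = 4 := by
    simp only [wA, wt]
    norm_num
  have wB' : wt 2 wB 0 = 2 := by
    simp only [wB, wt]
    norm_num
  have fA : fin' wA 2 = 0 := rfl
  have fB : fin' wB 0 = 0 := rfl
  have sA : sh wA 2 n = 2208 * 2 ^ n := by
    simp only [wA, sh, List.length_cons, List.length_nil]
    push_cast
    ring
  have sB : R - 2 ^ (n + 11) - sh wB 0 n = R - 2208 * 2 ^ n := by
    simp only [wB, sh, List.length_cons, List.length_nil]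
    push_cast
    ring
  rw [lA, wA', fA, sA] at hA
  rw [lB, wB', fB, sB] at hB
  rw [h1, hA, hB]
  ring

/-- the inequality for the moment sums which uses the coincidence -/
theorem YY_twelve {q : ℝ} (hq : 1 ≤ q) (n : ℕ) :
    2 ^ q * restZ (YY q) (2 ^ q) wA 2 n + 2 ^ q * restZ (YY q) (2 ^ q) wB 0 n + 12 ^ q * YY q n 0 ≤ YY q (n + 12) 0 := by
  have h2 : (0 : ℝ) ≤ 2 := by norm_num
  have n1 : Nice (fun R => 2 * rest wA 2 n R) := (nice_rest wA n 2).smul h2
  have n2 : Nice (fun R => 2 * rest wB 0 n (R - 2 ^ (n + 11))) := ((nice_rest wB n 0).shift _).smul h2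
  have n3 : Nice (fun R => 12 * UU 1 n 0 (R - 2208 * 2 ^ n)) := ((nice_UU n 0).shift _).smul (by norm_num)
  have e1 : SQ q (fun R => 2 * rest wA 2 n R) = 2 ^ q * SQ q (rest wA 2 n) := SQ_smul (nice_rest wA n 2) h2 q
  have e2 : SQ q (fun R => 2 * rest wB 0 n (R - 2 ^ (n + 11))) = 2 ^ q * SQ q (rest wB 0 n) := by
    rw [SQ_smul ((nice_rest wB n 0).shift _) h2 q, SQ_shift q (rest wB 0 n)]
  have e3 : SQ q (fun R => 12 * UU 1 n 0 (R - 2208 * 2 ^ n)) = 12 ^ q * YY q n 0 := by
    rw [SQ_smul ((nice_UU n 0).shift _) (by norm_num) q, SQ_shift q (UU 1 n 0)]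
    rfl
  have h4 : YY q (n + 12) 0 = SQ q (fun R => (2 * rest wA 2 n R + 2 * rest wB 0 n (R - 2 ^ (n + 11))) + 12 * UU 1 n 0 (R - 2208 * 2 ^ n)) := by
    unfold YY
    congr 1
    funext R
    exact UU_coincidence n R
  rw [h4]
  refine le_trans (add_le_add (add_le_add ?_ ?_) (le_of_eq e3.symm)) (le_trans (add_le_add (SQ_add_le n1 n2 hq) le_rfl) (SQ_add_le (n1.add n2) n3 hq))
  · rw [e1]
    exact mul_le_mul_of_nonneg_left (restZ_le hq wA n 2) (by positivity)
  · rw [e2]
    exact mul_le_mul_of_nonneg_left (restZ_le hq wB n 0) (by positivity)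

theorem YY_succ {q : ℝ} (hq : 1 ≤ q) (n d : ℕ) : YY q n (d + 2) + YY q n d ≤ YY q (n + 1) (d + 1) := by
  refine le_trans (add_le_add le_rfl (le_of_eq ?_)) (SQ_add_le (nice_UU n (d + 2)) ((nice_UU n d).shift (2 ^ n * (d + 2))) hq)
  exact (SQ_shift q _ _).symm

theorem TT_le_YY {q : ℝ} (hq : 1 ≤ q) (n d : ℕ) : TT (2 ^ q) n d ≤ YY q n d := by
  have hx : (0 : ℝ) ≤ 2 ^ (q - 1) := by positivity
  have h2 : (2 : ℝ) ^ q = 2 * 2 ^ (q - 1) := by
    rw [Real.rpow_sub_one (by norm_num)]
    ring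
  rw [h2]
  refine (TT_le_sum hx n d).trans ?_
  refine (Finset.sum_le_sum fun R _ => UU_le_pow hq n d R).trans ?_
  exact ((nice_UU n d).summable (by linarith)).sum_le_tsum _ fun R _ => Real.rpow_nonneg (UU_nonneg zero_le_one n d R) q

theorem YY_le_ZZ {q : ℝ} (hq : 1 ≤ q) (m : ℕ) : YY q (2 * m) 0 ≤ ZZ m q := by
  unfold YY SQ ZZ
  rw [tsum_eq_sum (s := NN m 0)]
  · refine le_of_eq (Finset.sum_congr rfl fun S _ => ?_)
    rw [MM_eq_UU]
  · intro S hS
    have h1 : MM (2 * m) S 0 = 0 := by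
      by_contra hcon
      exact hS (LegC_mem_NN hcon)
    rw [← MM_eq_UU, h1, Nat.cast_zero, Real.zero_rpow (by linarith)]

end Pool.Agent.H24.TK
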